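import Pool.Agent.H41.T1.S5
import Pool.Agent.H97.HYP.STAB

/-!
# T1, row CT1K: orbits of pairs of matrices
-/

set_option autoImplicit false

namespace Pool.T1

open Polynomial Matrix Pool.HYP Pool.TOW Pool.AVS IsDedekindDomain

namespace CT1K77

section Lm

variable {R : Type} [CommRing R] {K : Type} [Field K] [Algebra R K] {O : ValuationSubring K}
  {π : K}

theorem lm_zero (m : ℤ) : (0 : R) ∈ Lm R O π m := by
  change algebraMap R K 0 * π ^ m ∈ O
  rw [map_zero, zero_mul]
  exact O.zero_mem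

theorem lm_one : (1 : R) ∈ Lm R O π 0 := by
  change algebraMap R K 1 * π ^ (0 : ℤ) ∈ O
  rw [map_one, zpow_zero, mul_one]
  exact O.one_mem

theorem lm_add {a b : R} {m : ℤ} (ha : a ∈ Lm R O π m) (hb : b ∈ Lm R O π m) :
    a + b ∈ Lm R O π m := by
  change algebraMap R K (a + b) * π ^ m ∈ O
  rw [map_add, add_mul]
  exact O.add_mem _ _ ha hb

theorem lm_mul (hπ : π ≠ 0) {a b : R} {m n : ℤ} (ha : a ∈ Lm R O π m) (hb : b ∈ Lm R O π n) :
    a * b ∈ Lm R O π (m + n) := by
  change algebraMap R K (a * b) * π ^ (m + n) ∈ O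
  rw [map_mul, zpow_add₀ hπ,
    show algebraMap R K a * algebraMap R K b * (π ^ m * π ^ n) =
      algebraMap R K a * π ^ m * (algebraMap R K b * π ^ n) by ring]
  exact O.mul_mem _ _ ha hb

theorem lm_sum {ι : Type} (s : Finset ι) (f : ι → R) {m : ℤ} (h : ∀ i ∈ s, f i ∈ Lm R O π m) :
    ∑ i ∈ s, f i ∈ Lm R O π m := by
  classical
  induction s using Finset.induction_on with
  | empty => rw [Finset.sum_empty]; exact lm_zero m
  | insert a s ha ih =>
    rw [Finset.sum_insert ha]
    exact lm_add (h a (Finset.mem_insert_self _ _))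
      (ih fun i hi => h i (Finset.mem_insert_of_mem hi))

theorem lm_mm (hπ : π ≠ 0) {n : ℕ} (A B : Matrix (Fin n) (Fin n) R) (x y z : Fin n → ℤ)
    (hA : ∀ i j, A i j ∈ Lm R O π (x i + y j)) (hB : ∀ i j, B i j ∈ Lm R O π (-y i + z j))
    (i j : Fin n) : (A * B) i j ∈ Lm R O π (x i + z j) := by
  rw [Matrix.mul_apply]
  refine lm_sum _ _ fun a _ => ?_
  have h := lm_mul hπ (hA i a) (hB a j)
  rwa [show x i + y a + (-y a + z j) = x i + z j by ring] at h

/-! ### The group -/

theorem uu_tri {n : ℕ} {d : Fin n → ℤ} {u : Matrix (Fin n) (Fin n) R}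
    (hu : u ∈ UUK R O π d) : u.BlockTriangular id := fun i j hij => hu.2.1 i j hij

theorem uu_det {n : ℕ} {d : Fin n → ℤ} {u : Matrix (Fin n) (Fin n) R}
    (hu : u ∈ UUK R O π d) : u.det = 1 := by
  rw [Matrix.det_of_isUpperTriangular (uu_tri hu)]
  exact Finset.prod_eq_one fun i _ => hu.1 i

theorem uu_lm {n : ℕ} {d : Fin n → ℤ} {u : Matrix (Fin n) (Fin n) R}
    (hu : u ∈ UUK R O π d) (i j : Fin n) : u i j ∈ Lm R O π (-d i + d j) := by
  rcases lt_trichotomy i j with h | h | h
  · have := hu.2.2 i j h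
    rwa [show d j - d i = -d i + d j by ring] at this
  · subst h
    rw [hu.1 i, neg_add_cancel]
    exact lm_one
  · rw [hu.2.1 i j h]
    exact lm_zero _

end Lm

section Mat

variable {R : Type} [CommRing R]

theorem pen_conj {n : ℕ} (G S u : Matrix (Fin n) (Fin n) R) :
    pen (uᵀ * G * u) (uᵀ * S * u) = (u.map C)ᵀ * pen G S * u.map C := by
  ext i j
  have h1 : pen G S = (X : R[X]) • G.map C - S.map C := by
    ext i j
    rfl
  have h2 : pen (uᵀ * G * u) (uᵀ * S * u) =
      (X : R[X]) • (uᵀ * G * u).map C - (uᵀ * S * u).map C := by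
    ext i j
    rfl
  rw [h1, h2, Matrix.map_mul, Matrix.map_mul, Matrix.map_mul, Matrix.map_mul, Matrix.mul_sub,
    Matrix.sub_mul, Matrix.mul_smul, Matrix.smul_mul, Matrix.transpose_map]

theorem det_conj {n : ℕ} (G u : Matrix (Fin n) (Fin n) R) :
    (uᵀ * G * u).det = u.det ^ 2 * G.det := by
  rw [Matrix.det_mul, Matrix.det_mul, Matrix.det_transpose]
  ring

theorem tri_zero {n k : ℕ} (G u : Matrix (Fin n) (Fin n) R) (hu : u.BlockTriangular id)
    (hG : ∀ i j : Fin n, (i : ℕ) < k → (j : ℕ) < k → G i j = 0) (i j : Fin n) (hi : (i : ℕ) < k)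
    (hj : (j : ℕ) < k) : (uᵀ * G * u) i j = 0 := by
  rw [Matrix.mul_apply]
  refine Finset.sum_eq_zero fun b _ => ?_
  by_cases hb : j < b
  · rw [hu hb, mul_zero]
  · rw [Matrix.mul_apply, Finset.sum_mul]
    refine Finset.sum_eq_zero fun a _ => ?_
    by_cases ha : i < a
    · rw [Matrix.transpose_apply, hu ha, zero_mul, zero_mul]
    · rw [hG a b (by
        have : (a : ℕ) ≤ i := not_lt.1 ha
        omega) (by
        have : (b : ℕ) ≤ j := not_lt.1 hb
        omega), mul_zero, zero_mul]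

end Mat

section Act

variable {R : Type} [CommRing R] [IsDomain R] {K : Type} [Field K] [Algebra R K]
  {O : ValuationSubring K} {π : K}

/-- The action. -/
theorem act (hπ : π ≠ 0) {g : ℕ} {D : Dat R O} {h : ℕ} {d : Fin (2 * g + 1) → ℤ} {f : R[X]}
    {G S u : Matrix (Fin (2 * g + 1)) (Fin (2 * g + 1)) R} (hu : u ∈ UUK R O π d)
    (hG : PMK π g D h d f G S) : PMK π g D h d f (uᵀ * G * u) (uᵀ * S * u) := by
  obtain ⟨h1, h2, h3, h4, h5, h6, h7, h8⟩ := hG
  have hd := uu_det hu
  have hd' : IsUnit u.det := by rw [hd]; exact isUnit_one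
  have hdeg := uu_lm hu
  refine ⟨?_, ?_, ?_, ?_, ?_, ?_, ?_, ?_⟩
  · rw [Matrix.transpose_mul, Matrix.transpose_mul, Matrix.transpose_transpose, h1,
      Matrix.mul_assoc]
  · rw [Matrix.transpose_mul, Matrix.transpose_mul, Matrix.transpose_transpose, h2,
      Matrix.mul_assoc]
  · refine lm_mm hπ _ _ d d d (lm_mm hπ _ _ d (fun a => -d a) d ?_ ?_) hdeg
    · intro i a
      rw [Matrix.transpose_apply, add_comm]
      exact hdeg a i
    · intro a b
      rw [neg_neg]
      exact h3 a b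
  · intro i j
    have h9 := lm_mm (O := O) hπ (uᵀ * S) u d (fun a => d a + h) (fun a => d a + h)
      (lm_mm (O := O) hπ _ _ d (fun a => -d a) (fun a => d a + h) ?_ ?_) ?_ i j
    · rwa [← add_assoc] at h9
    · intro i a
      rw [Matrix.transpose_apply, add_comm]
      exact hdeg a i
    · intro a b
      rw [neg_neg, ← add_assoc]
      exact h4 a b
    · intro a b
      rw [show -(d a + (h : ℤ)) + (d b + h) = -d a + d b by ring]
      exact hdeg a b
  · rw [det_conj, hd, one_pow, one_mul]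
    exact h5
  · rw [pen_conj, det_conj, det_conj, h6]
    have : (u.map C).det = C u.det := by
      rw [← RingHom.mapMatrix_apply, ← RingHom.map_det]
    rw [this, C_mul, C_pow]
    ring
  · intro P hPT
    obtain ⟨a, ha1, ha2, ha3⟩ := h7 P hPT
    have hcong : ∀ A B : Matrix (Fin (2 * g + 1)) (Fin (2 * g + 1)) R,
        (∀ i j, (A - aᵀ * B * a) i j ∈ P.asIdeal) →
        ∀ i j, (uᵀ * A * u - (a * u)ᵀ * B * (a * u)) i j ∈ P.asIdeal := by
      intro A B hAB i j
      have e1 : uᵀ * A * u - (a * u)ᵀ * B * (a * u) = uᵀ * (A - aᵀ * B * a) * u := by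
        rw [Matrix.transpose_mul, Matrix.mul_sub, Matrix.sub_mul]
        simp only [Matrix.mul_assoc]
      rw [e1, Matrix.mul_apply]
      refine Ideal.sum_mem _ fun b _ => ?_
      refine Ideal.mul_mem_right _ _ ?_
      rw [Matrix.mul_apply]
      exact Ideal.sum_mem _ fun c _ => Ideal.mul_mem_left _ _ (hAB c b)
    refine ⟨a * u, ?_, hcong G _ ha2, hcong S _ ha3⟩
    rw [Matrix.det_mul, hd, mul_one]
    exact ha1
  · intro h0
    apply h8
    let _ : Invertible u := Matrix.invertibleOfIsUnitDet u hd'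
    have htri : (u⁻¹).BlockTriangular id := Matrix.blockTriangular_inv_of_blockTriangular (uu_tri hu)
    have hinv : ∀ A : Matrix (Fin (2 * g + 1)) (Fin (2 * g + 1)) R,
        (u⁻¹)ᵀ * (uᵀ * A * u) * u⁻¹ = A := by
      intro A
      have e1 : (u⁻¹)ᵀ * uᵀ = 1 := by
        rw [← Matrix.transpose_mul, Matrix.mul_nonsing_inv u hd', Matrix.transpose_one]
      have e2 : u * u⁻¹ = 1 := Matrix.mul_nonsing_inv u hd'
      calc (u⁻¹)ᵀ * (uᵀ * A * u) * u⁻¹ = ((u⁻¹)ᵀ * uᵀ) * A * (u * u⁻¹) := by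
            simp only [Matrix.mul_assoc]
        _ = A := by rw [e1, e2, Matrix.one_mul, Matrix.mul_one]
    intro i j hi hj
    constructor
    · rw [← hinv G]
      exact tri_zero _ _ htri (fun i j hi hj => (h0 i j hi hj).1) i j hi hj
    · rw [← hinv S]
      exact tri_zero _ _ htri (fun i j hi hj => (h0 i j hi hj).2) i j hi hj

theorem pen_map {n : ℕ} (G S : Matrix (Fin n) (Fin n) R) :
    (pen (G.map (algebraMap R K)) (S.map (algebraMap R K))).det =
      ((pen G S).det).map (algebraMap R K) := by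
  have h1 : pen (G.map (algebraMap R K)) (S.map (algebraMap R K)) =
      (Polynomial.mapRingHom (algebraMap R K)).mapMatrix (pen G S) := by
    ext1 i j
    rw [RingHom.mapMatrix_apply, Matrix.map_apply]
    simp [pen]
  rw [h1, ← RingHom.map_det]
  rfl

theorem mK_conj {n : ℕ} (w A : Matrix (Fin n) (Fin n) R) :
    (wᵀ * A * w).map (algebraMap R K) =
      (w.map (algebraMap R K))ᵀ * A.map (algebraMap R K) * w.map (algebraMap R K) := by
  rw [Matrix.map_mul, Matrix.map_mul, Matrix.transpose_map]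

/-- Two elements of the group with the same image differ by a sign. -/
theorem two (hinj : Function.Injective (algebraMap R K)) {n : ℕ} {f : R[X]}
    {G S u v : Matrix (Fin n) (Fin n) R} (hG : Gᵀ = G)
    (hS : Sᵀ = S) (hd : G.det ≠ 0) (hp : (pen G S).det = C G.det * f)
    (hf : Irreducible (fk K f)) (hu : IsUnit u.det)
    (h1 : vᵀ * G * v = uᵀ * G * u) (h2 : vᵀ * S * v = uᵀ * S * u) : v = u ∨ v = -u := by
  set w := v * u⁻¹ with hw
  have e2 : u * u⁻¹ = 1 := Matrix.mul_nonsing_inv u hu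
  have e3 : u⁻¹ * u = 1 := Matrix.nonsing_inv_mul u hu
  have e1 : (u⁻¹)ᵀ * uᵀ = 1 := by
    rw [← Matrix.transpose_mul, e2, Matrix.transpose_one]
  have hconj : ∀ A : Matrix (Fin n) (Fin n) R, vᵀ * A * v = uᵀ * A * u → wᵀ * A * w = A := by
    intro A hA
    calc wᵀ * A * w = (u⁻¹)ᵀ * (vᵀ * A * v) * u⁻¹ := by
          rw [hw, Matrix.transpose_mul]
          simp only [Matrix.mul_assoc]
      _ = ((u⁻¹)ᵀ * uᵀ) * A * (u * u⁻¹) := by
          rw [hA]
          simp only [Matrix.mul_assoc]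
      _ = A := by rw [e1, e2, Matrix.one_mul, Matrix.mul_one]
  have hm : ∀ A : Matrix (Fin n) (Fin n) R, wᵀ * A * w = A →
      (w.map (algebraMap R K))ᵀ * A.map (algebraMap R K) * w.map (algebraMap R K) =
        A.map (algebraMap R K) := by
    intro A hA
    rw [← mK_conj, hA]
  have hdK' : (G.map (algebraMap R K)).det = algebraMap R K G.det := by
    rw [RingHom.map_det]; rfl
  have hdK : (G.map (algebraMap R K)).det ≠ 0 := by
    rw [hdK']
    exact fun h0 => hd (hinj (by rw [h0, map_zero]))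
  have hirr : Irreducible (pen (G.map (algebraMap R K)) (S.map (algebraMap R K))).det := by
    rw [pen_map, hp, Polynomial.map_mul, map_C]
    have hun : IsUnit (C (algebraMap R K G.det)) :=
      (isUnit_iff_ne_zero.2 (by rwa [← hdK'])).map _
    exact (irreducible_isUnit_mul hun).2 hf
  have h3 := stab K n (G.map (algebraMap R K)) (S.map (algebraMap R K)) (w.map (algebraMap R K))
    (by rw [← Matrix.transpose_map, hG])
    (by rw [← Matrix.transpose_map, hS]) hdK hirr
    (hm G (hconj G h1)) (hm S (hconj S h2))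
  have hv : v = w * u := by
    rw [hw, Matrix.mul_assoc, e3, Matrix.mul_one]
  have hmi : Function.Injective fun A : Matrix (Fin n) (Fin n) R => A.map (algebraMap R K) :=
    Matrix.map_injective hinj
  rcases h3 with h3 | h3
  · left
    have : w = 1 := hmi (by
      change w.map (algebraMap R K) = (1 : Matrix (Fin n) (Fin n) R).map (algebraMap R K)
      rw [h3]; simp)
    rw [hv, this, Matrix.one_mul]
  · right
    have : w = -1 := hmi (by
      change w.map (algebraMap R K) = (-1 : Matrix (Fin n) (Fin n) R).map (algebraMap R K)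
      rw [h3]
      ext i j
      simp [Matrix.one_apply, apply_ite])
    rw [hv, this, neg_one_mul]

end Act

end CT1K77

/-- CT1K: orbits of pairs of matrices. -/
theorem ct1k : CT1KStmt := by
  classical
  intro R _ _ K _ _ _ O π hR g D h d _ _ hirr _ hPP
  rcases (PFK π g D h d).finite_or_infinite with hPF | hPF
  swap
  · rw [hPF.ncard, zero_mul]; exact Nat.zero_le _
  rcases (UUK R O π d).finite_or_infinite with hUU | hUU
  swap
  · rw [hUU.ncard, mul_zero]; exact Nat.zero_le _
  rw [← Set.ncard_prod]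
  choose! G S hGS using fun (f : R[X]) (hf : f ∈ PFK π g D h d) => hf.2
  refine Set.ncard_le_ncard_of_injOn
    (fun x : R[X] × Matrix (Fin (2 * g + 1)) (Fin (2 * g + 1)) R =>
      (x.2ᵀ * G x.1 * x.2, x.2ᵀ * S x.1 * x.2)) ?_ ?_ hPP
  · intro x hx
    exact ⟨x.1, hx.1.1, CT1K77.act hR.pi_ne hx.2 (hGS x.1 hx.1)⟩
  · intro y hy x hx hΦ
    have e1 : y.2ᵀ * G y.1 * y.2 = x.2ᵀ * G x.1 * x.2 := congrArg Prod.fst hΦ
    have e2 : y.2ᵀ * S y.1 * y.2 = x.2ᵀ * S x.1 * x.2 := congrArg Prod.snd hΦ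
    have hpx := CT1K77.act hR.pi_ne hx.2 (hGS x.1 hx.1)
    have hpy := CT1K77.act hR.pi_ne hy.2 (hGS y.1 hy.1)
    have hf : y.1 = x.1 := by
      have h1 := hpx.2.2.2.2.2.1
      have h2 := hpy.2.2.2.2.2.1
      rw [e1, e2, h1] at h2
      have h3 : (C (x.2ᵀ * G x.1 * x.2).det : R[X]) ≠ 0 := C_ne_zero.2 hpx.2.2.2.2.1
      exact (mul_left_cancel₀ h3 h2).symm
    rw [hf] at e1 e2
    obtain ⟨k1, k2, _, _, k5, k6, _⟩ := hGS x.1 hx.1
    have hdu : IsUnit x.2.det := by rw [CT1K77.uu_det hx.2]; exact isUnit_one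
    rcases CT1K77.two (IsFractionRing.injective R K) k1 k2 k5 k6 (hirr x.1 hx.1.1) hdu e1 e2 with
      h4 | h4
    · exact Prod.ext hf h4
    · exfalso
      have h5 : y.2 0 0 = -x.2 0 0 := by rw [h4, Matrix.neg_apply]
      rw [hy.2.1 0, hx.2.1 0] at h5
      apply hR.two
      have h6 : (2 : R) = 0 := by
        have : (1 : R) + 1 = 0 := by
          nth_rewrite 1 [h5]
          exact neg_add_cancel 1
        rwa [one_add_one_eq_two] at this
      rw [← map_ofNat (algebraMap R K) 2, h6, map_zero]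

end Pool.T1
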