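import Pool.Agent.H14.T1.S3
import Pool.Agent.H30.T1.Loc

/-!
# T1, LDP: the local data at a good prime
-/

set_option autoImplicit false
set_option linter.overlappingInstances false
set_option linter.unusedSectionVars false

namespace Pool.T1

open Polynomial Matrix Pool.HYP Pool.TOW Pool.AVS IsDedekindDomain

namespace Ldp

section Loc

variable {R : Type} [CommRing R] [IsDomain R] {K : Type} [Field K] [Algebra R K]
  [IsFractionRing R K] {P : HeightOneSpectrum R}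

theorem rp_neg {x : K} (h : x ∈ RP K P) : -x ∈ RP K P := by
  obtain ⟨m, hm, a, ha⟩ := h
  exact ⟨m, hm, -a, by rw [map_neg, ← ha, mul_neg]⟩

theorem rp_sgn {n : ℕ} : ((-1 : K)) ^ n ∈ RP K P := by
  induction n with
  | zero => rw [pow_zero]; exact rp_one
  | succ n ih => rw [pow_succ]; exact rp_mul ih (rp_neg rp_one)

theorem ui_add {u y : K} {q : R} (hu : UI (RP K P) u) (hq : q ∈ P.asIdeal) (hy : y ∈ RP K P) :
    UI (RP K P) (u + algebraMap R K q * y) := by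
  obtain ⟨hu0, ⟨n, hn, a, ha⟩, n', hn', a', ha'⟩ := hu
  obtain ⟨m, hm, b, hb⟩ := hy
  have haP : a ∉ P.asIdeal := by
    intro h
    have h1 : algebraMap R K (n * n') = algebraMap R K (a * a') := by
      rw [map_mul, map_mul, ← ha, ← ha']
      field_simp
    have h2 := IsFractionRing.injective R K h1
    have h3 : n * n' ∈ P.asIdeal := by
      rw [h2]
      exact P.asIdeal.mul_mem_right _ h
    rcases P.isPrime.mem_or_mem h3 with h | h
    · exact hn h
    · exact hn' h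
  have hc : a * m + q * (n * b) ∉ P.asIdeal := by
    intro h
    have h1 : a * m ∈ P.asIdeal := by
      have h2 := P.asIdeal.sub_mem h (P.asIdeal.mul_mem_right (n * b) hq)
      rwa [add_sub_cancel_right] at h2
    rcases P.isPrime.mem_or_mem h1 with h | h
    · exact haP h
    · exact hm h
  have hnm : n * m ∉ P.asIdeal := by
    intro h
    rcases P.isPrime.mem_or_mem h with h | h
    · exact hn h
    · exact hm h
  have key : algebraMap R K (n * m) * (u + algebraMap R K q * y) =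
      algebraMap R K (a * m + q * (n * b)) := by
    rw [map_mul, map_add, map_mul, map_mul, map_mul, ← ha, ← hb]
    ring
  have hc0 : algebraMap R K (a * m + q * (n * b)) ≠ 0 := alg_ne fun h => hc (by
    rw [h]; exact P.asIdeal.zero_mem)
  have hx0 : u + algebraMap R K q * y ≠ 0 := by
    intro h
    rw [h, mul_zero] at key
    exact hc0 key.symm
  refine ⟨hx0, ⟨n * m, hnm, _, key⟩, a * m + q * (n * b), hc, n * m, ?_⟩
  rw [← key]
  field_simp

theorem prod_cg {ι : Type} (s : Finset ι) {e : K} (he : e ∈ RP K P) (x y : ι → K)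
    (hy : ∀ i ∈ s, y i ∈ RP K P) (h : ∀ i ∈ s, ∃ z ∈ RP K P, x i = y i + e * z) :
    ∃ z ∈ RP K P, ∏ i ∈ s, x i = ∏ i ∈ s, y i + e * z := by
  classical
  induction s using Finset.induction_on with
  | empty => exact ⟨0, rp_zero, by simp⟩
  | insert a s ha ih =>
    obtain ⟨z, hz, h1⟩ := ih (fun i hi => hy i (Finset.mem_insert_of_mem hi))
      fun i hi => h i (Finset.mem_insert_of_mem hi)
    obtain ⟨w, hw, h2⟩ := h a (Finset.mem_insert_self a s)
    refine ⟨y a * z + w * (∏ i ∈ s, y i) + e * (w * z), ?_, ?_⟩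
    · exact rp_add (rp_add (rp_mul (hy a (Finset.mem_insert_self a s)) hz)
        (rp_mul hw (rp_prod s y fun i hi => hy i (Finset.mem_insert_of_mem hi))))
        (rp_mul he (rp_mul hw hz))
    · rw [Finset.prod_insert ha, Finset.prod_insert ha, h1, h2]
      ring

theorem sum_cg {ι : Type} (s : Finset ι) {e : K} (x y : ι → K)
    (h : ∀ i ∈ s, ∃ z ∈ RP K P, x i = y i + e * z) :
    ∃ z ∈ RP K P, ∑ i ∈ s, x i = ∑ i ∈ s, y i + e * z := by
  classical
  induction s using Finset.induction_on with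
  | empty => exact ⟨0, rp_zero, by simp⟩
  | insert a s ha ih =>
    obtain ⟨z, hz, h1⟩ := ih fun i hi => h i (Finset.mem_insert_of_mem hi)
    obtain ⟨w, hw, h2⟩ := h a (Finset.mem_insert_self a s)
    refine ⟨w + z, rp_add hw hz, ?_⟩
    rw [Finset.sum_insert ha, Finset.sum_insert ha, h1, h2]
    ring

theorem det_cg {n : ℕ} {e : K} (he : e ∈ RP K P) (A C : Matrix (Fin n) (Fin n) K)
    (hC : MIn (RP K P) C) (h : ∀ i j, ∃ z ∈ RP K P, A i j = C i j + e * z) :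
    ∃ z ∈ RP K P, A.det = C.det + e * z := by
  rw [Matrix.det_apply, Matrix.det_apply]
  refine sum_cg _ _ _ fun σ _ => ?_
  obtain ⟨z, hz, h1⟩ := prod_cg (P := P) Finset.univ he (fun i => A (σ i) i) (fun i => C (σ i) i)
    (fun i _ => hC _ _) fun i _ => h _ _
  rcases Int.units_eq_one_or (Equiv.Perm.sign σ) with hs | hs
  · exact ⟨z, hz, by rw [hs, one_smul, one_smul, h1]⟩
  · refine ⟨-z, rp_neg hz, ?_⟩
    rw [hs, h1, Units.neg_smul, Units.neg_smul, one_smul, one_smul]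
    ring

theorem rp_mInI_add {n : ℕ} {A B : Matrix (Fin n) (Fin n) K} (hA : MIn (RP K P) A)
    (hB : MIn (RP K P) B) : MIn (RP K P) (A + B) := fun i j => rp_add (hA i j) (hB i j)

/-- The matrix `hᵀ A h` is near to `kᵀ A k` if `h` is near to `k`. -/
theorem near {n : ℕ} {a : K} (ha0 : a ≠ 0) (ha : a ∈ RP K P) (A k h : Matrix (Fin n) (Fin n) K)
    (hk : k.det ≠ 0) (hC : MIn (RP K P) (kᵀ * A * k))
    (hh : ∀ i j, (k⁻¹ * h - 1) i j / a ∈ RP K P) :
    ∃ Z : Matrix (Fin n) (Fin n) K, MIn (RP K P) Z ∧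
      ∀ i j, (hᵀ * A * h) i j = (kᵀ * A * k) i j + a * Z i j := by
  obtain ⟨M, hM, hM1⟩ : ∃ M : Matrix (Fin n) (Fin n) K, MIn (RP K P) M ∧
      h = k * (1 + a • M) := by
    refine ⟨Matrix.of fun i j => (k⁻¹ * h - 1) i j / a, fun i j => hh i j, ?_⟩
    have h1 : a • (Matrix.of fun i j => (k⁻¹ * h - 1) i j / a) = k⁻¹ * h - 1 := by
      ext i j
      rw [Matrix.smul_apply, Matrix.of_apply, smul_eq_mul, mul_div_cancel₀ _ ha0]
    rw [h1, add_sub_cancel, ← Matrix.mul_assoc, Matrix.mul_nonsing_inv _ (Ne.isUnit hk),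
      Matrix.one_mul]
  refine ⟨Mᵀ * (kᵀ * A * k) + (kᵀ * A * k) * M + a • (Mᵀ * (kᵀ * A * k) * M), ?_, ?_⟩
  · have hMT : MIn (RP K P) Mᵀ := fun i j => hM j i
    refine rp_mInI_add (rp_mInI_add (rp_min_mul hMT hC) (rp_min_mul hC hM)) fun i j => ?_
    rw [Matrix.smul_apply, smul_eq_mul]
    exact rp_mul ha (rp_min_mul (rp_min_mul hMT hC) hM i j)
  · intro i j
    have h2 : hᵀ * A * h = kᵀ * A * k +
        a • (Mᵀ * (kᵀ * A * k) + (kᵀ * A * k) * M + a • (Mᵀ * (kᵀ * A * k) * M)) := by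
      rw [hM1, Matrix.transpose_mul, Matrix.transpose_add, Matrix.transpose_smul,
        Matrix.transpose_one]
      have h3 : (1 + a • Mᵀ) * kᵀ * A * (k * (1 + a • M)) =
          (1 + a • Mᵀ) * (kᵀ * A * k) * (1 + a • M) := by
        simp only [Matrix.mul_assoc]
      rw [h3]
      simp only [Matrix.add_mul, Matrix.mul_add, Matrix.one_mul, Matrix.mul_one,
        Matrix.smul_mul, Matrix.mul_smul, smul_add]
      abel
    rw [h2, Matrix.add_apply, Matrix.smul_apply, smul_eq_mul]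

theorem blk_mIn {ϖ : R} (hϖ : algebraMap R K ϖ ≠ 0) {m : ℕ}
    {C : Matrix (Fin (m + 1)) (Fin (m + 1)) K} (h : BlkQ (RP K P) (algebraMap R K ϖ) C) :
    MIn (RP K P) C := by
  have hd : ∀ x : K, x / algebraMap R K ϖ ∈ RP K P → x ∈ RP K P := by
    intro x hx
    have h1 := rp_mul (rp_alg (K := K) (P := P) ϖ) hx
    rwa [mul_div_cancel₀ _ hϖ] at h1
  intro i j
  induction i using Fin.cases with
  | zero =>
    induction j using Fin.cases with
    | zero => exact h.1.2.1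
    | succ j => exact hd _ (h.2.1 j).1
  | succ i =>
    induction j using Fin.cases with
    | zero => exact hd _ (h.2.1 i).2
    | succ j => exact hd _ (h.2.2.1 i j)

theorem blk_near {ϖ : R} (hϖ : algebraMap R K ϖ ≠ 0) (hϖP : ϖ ∈ P.asIdeal) {m : ℕ}
    {A C Z : Matrix (Fin (m + 1)) (Fin (m + 1)) K}
    (h : BlkQ (RP K P) (algebraMap R K ϖ) C) (hZ : MIn (RP K P) Z)
    (hA : ∀ i j, A i j = C i j + algebraMap R K ϖ * (algebraMap R K ϖ * Z i j)) :
    BlkQ (RP K P) (algebraMap R K ϖ) A ∧ ∃ z ∈ RP K P,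
      dsc (algebraMap R K ϖ) A = dsc (algebraMap R K ϖ) C + algebraMap R K ϖ * z := by
  have hp : algebraMap R K ϖ ∈ RP K P := rp_alg ϖ
  have he : ∀ i j, A i j / algebraMap R K ϖ =
      C i j / algebraMap R K ϖ + algebraMap R K ϖ * Z i j := by
    intro i j
    rw [hA i j]
    field_simp
  have hq : ∀ i j, C i j / algebraMap R K ϖ ∈ RP K P → A i j / algebraMap R K ϖ ∈ RP K P := by
    intro i j hc
    rw [he i j]
    exact rp_add hc (rp_mul hp (hZ i j))
  obtain ⟨h1, h2, h3, h4⟩ := h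
  obtain ⟨z, hz, hzd⟩ := det_cg (P := P) hp
    (Matrix.of fun i j : Fin m => A i.succ j.succ / algebraMap R K ϖ)
    (Matrix.of fun i j : Fin m => C i.succ j.succ / algebraMap R K ϖ) (fun i j => h3 i j)
    fun i j => ⟨Z i.succ j.succ, hZ _ _, he _ _⟩
  refine ⟨⟨?_, fun j => ⟨hq _ _ (h2 j).1, hq _ _ (h2 j).2⟩, fun i j => hq _ _ (h3 i j), ?_⟩, z, hz,
    hzd⟩
  · rw [hA 0 0]
    exact ui_add h1 hϖP (rp_mul hp (hZ 0 0))
  · rw [hzd]
    exact ui_add h4 hϖP hz

theorem sq_near {ϖ : R} (hϖ : algebraMap R K ϖ ≠ 0) {x y : K} {g : ℕ}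
    (h : ∃ z ∈ RP K P, x = y + algebraMap R K ϖ * z) :
    SqQ (RP K P) (algebraMap R K ϖ) ((-1) ^ g * x) ↔
      SqQ (RP K P) (algebraMap R K ϖ) ((-1) ^ g * y) := by
  obtain ⟨z, hz, rfl⟩ := h
  have hs : (-1 : K) ^ g * z ∈ RP K P := rp_mul rp_sgn hz
  constructor
  · rintro ⟨w, hw, h1⟩
    refine ⟨w, hw, ?_⟩
    have h2 := rp_add h1 (rp_neg hs)
    have h3 : ((-1) ^ g * (y + algebraMap R K ϖ * z) - w ^ 2) / algebraMap R K ϖ +
        -((-1) ^ g * z) = ((-1) ^ g * y - w ^ 2) / algebraMap R K ϖ := by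
      field_simp
      ring
    rwa [h3] at h2
  · rintro ⟨w, hw, h1⟩
    refine ⟨w, hw, ?_⟩
    have h2 := rp_add h1 hs
    have h3 : ((-1) ^ g * y - w ^ 2) / algebraMap R K ϖ + (-1) ^ g * z =
        ((-1) ^ g * (y + algebraMap R K ϖ * z) - w ^ 2) / algebraMap R K ϖ := by
      field_simp
      ring
    rwa [h3] at h2

theorem ui_mul_sgn {x : K} {n : ℕ} (h : UI (RP K P) x) : UI (RP K P) ((-1) ^ n * x) := by
  obtain ⟨h0, h1, h2⟩ := h
  refine ⟨mul_ne_zero (pow_ne_zero _ (neg_ne_zero.2 one_ne_zero)) h0, rp_mul rp_sgn h1, ?_⟩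
  rw [mul_inv, ← inv_pow, inv_neg, inv_one]
  exact rp_mul rp_sgn h2

theorem sd_neg {n : ℕ} {B : Matrix (Fin n) (Fin n) K} (h : SD (RP K P) B) :
    SD (RP K P) (-B) := by
  obtain ⟨k, hk, h1, h2⟩ := h
  refine ⟨k, hk, ?_⟩
  have h3 : kᵀ * -B * k = -(kᵀ * B * k) := by
    rw [Matrix.mul_neg, Matrix.neg_mul]
  rw [h3]
  refine ⟨fun i j => rp_neg (h1 i j), ?_⟩
  rw [Matrix.det_neg]
  exact ui_mul_sgn h2

end Loc

end Ldp

open Ldp

/-- LDP from its parts. -/
theorem ldp (hLDT : LDTStmt) (hLDS : LDSStmt) (hGDU : GDUStmt) (hWAP : WAPStmt) (hVQB : VQBStmt)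
    (hTRF : TRFStmt) : LDPStmt := by
  classical
  intro F _ _ hF K _ _ _ _ n g ω p hp hpi hgood T ϖ d hϖ A B hA hB hAd hBd hBsd hAsd hTk
  have hxp : ((xR F K p : RR F K) : K) ≠ 0 := by
    rw [xR_coe]
    have h1 : algebraMap F[X] (RatFunc F) p ≠ 0 := by
      rw [Ne, FaithfulSMul.algebraMap_eq_zero_iff]
      exact hp.ne_zero
    exact (_root_.map_ne_zero _).2 h1
  have hxp' : xR F K p ≠ 0 := fun h => hxp (by rw [h]; rfl)
  have hfin : {P : HeightOneSpectrum (RR F K) | Abv p P}.Finite := by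
    have h1 : Ideal.span {xR F K p} ≠ (0 : Ideal (RR F K)) := by
      rw [Ne, Ideal.zero_eq_bot, Ideal.span_singleton_eq_bot]
      exact hxp'
    refine (Ideal.finite_factors h1).subset fun P hP => ?_
    show P.asIdeal ∣ Ideal.span {xR F K p}
    exact Ideal.dvd_span_singleton.2 hP
  -- the local bases
  have hk : ∀ P : HeightOneSpectrum (RR F K), ∃ k : Matrix (Fin (2 * g + 1)) (Fin (2 * g + 1)) K,
      k.det ≠ 0 ∧ (Abv p P → P ∉ T → GIn (RP K P) (kᵀ * A * k)) ∧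
      (Abv p P → P ∈ T → BlkQ (RP K P) (ϖ P : K) (kᵀ * A * k) ∧
        d P = dsc (ϖ P : K) (kᵀ * A * k)) := by
    intro P
    by_cases hP : Abv p P
    · by_cases hPT : P ∈ T
      · obtain ⟨k, h1, h2⟩ := hTk P hPT hP
        exact ⟨k, h1, fun _ h => absurd hPT h, fun _ _ => h2⟩
      · obtain ⟨k, h1, h2⟩ := hAsd P hP hPT
        exact ⟨k, h1, fun _ _ => h2, fun _ h => absurd h hPT⟩
    · exact ⟨1, by rw [Matrix.det_one]; exact one_ne_zero, fun h => absurd h hP,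
        fun h => absurd h hP⟩
  choose k hk0 hkN hkT using hk
  obtain ⟨h, hh0, hh⟩ := (hWAP (RR F K) K hfin.toFinset (((xR F K p : RR F K) : K) ^ 2)
    (pow_ne_zero 2 hxp)).2 (2 * g + 1) k fun P _ => hk0 P
  have hh' : ∀ P : HeightOneSpectrum (RR F K), Abv p P → ∀ i j,
      ((k P)⁻¹ * h - 1) i j / ((xR F K p : RR F K) : K) ^ 2 ∈ RP K P := fun P hP =>
    hh P (hfin.mem_toFinset.2 hP)
  have hxR : ∀ P : HeightOneSpectrum (RR F K), ((xR F K p : RR F K) : K) ∈ RP K P := fun P =>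
    rp_alg (K := K) (P := P) (xR F K p)
  have hx2 : ∀ P : HeightOneSpectrum (RR F K), ((xR F K p : RR F K) : K) ^ 2 ∈ RP K P := by
    intro P
    rw [sq]
    exact rp_mul (hxR P) (hxR P)
  have hw0 : ∀ P ∈ T, algebraMap (RR F K) K (ϖ P) ≠ 0 := fun P hP => alg_ne fun h0 =>
    (hϖ P hP).2 (by rw [h0]; exact Ideal.zero_mem _)
  have hCm : ∀ P : HeightOneSpectrum (RR F K), Abv p P →
      MIn (RP K P) ((k P)ᵀ * A * k P) := by
    intro P hP
    by_cases hPT : P ∈ T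
    · exact blk_mIn (hw0 P hPT) (hkT P hP hPT).1
    · exact (hkN P hP hPT).1
  have hnear : ∀ P : HeightOneSpectrum (RR F K), Abv p P →
      ∃ Z : Matrix (Fin (2 * g + 1)) (Fin (2 * g + 1)) K, MIn (RP K P) Z ∧
      ∀ i j, (hᵀ * A * h) i j = ((k P)ᵀ * A * k P) i j +
        ((xR F K p : RR F K) : K) ^ 2 * Z i j := fun P hP =>
    near (pow_ne_zero 2 hxp) (hx2 P) A (k P) h (hk0 P) (hCm P hP) (hh' P hP)
  -- the new form
  have hsym : (hᵀ * A * h)ᵀ = hᵀ * A * h := by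
    rw [Matrix.transpose_mul, Matrix.transpose_mul, Matrix.transpose_transpose, hA,
      Matrix.mul_assoc]
  have hmin : MIn (IS (F := F) K p) (hᵀ * A * h) := by
    intro i j P hP
    obtain ⟨Z, hZ, h1⟩ := hnear P hP
    rw [h1]
    exact rp_add (hCm P hP i j) (rp_mul (hx2 P) (hZ i j))
  have hui : ∀ P : HeightOneSpectrum (RR F K), Abv p P → P ∉ T →
      UI (RP K P) (hᵀ * A * h).det := by
    intro P hP hPT
    obtain ⟨Z, hZ, h1⟩ := hnear P hP
    obtain ⟨z, hz, h2⟩ := det_cg (P := P) (hxR P) (hᵀ * A * h) ((k P)ᵀ * A * k P) (hCm P hP)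
      fun i j => ⟨((xR F K p : RR F K) : K) * Z i j, rp_mul (hxR P) (hZ i j), by
        rw [h1 i j]
        ring⟩
    rw [h2]
    exact ui_add (q := xR F K p) (hkN P hP hPT).2 hP hz
  have hblk : ∀ P ∈ T, Abv p P → BlkQ (RP K P) (ϖ P : K) (hᵀ * A * h) ∧ ∃ z ∈ RP K P,
      dsc (ϖ P : K) (hᵀ * A * h) = d P + (ϖ P : K) * z := by
    intro P hPT hP
    obtain ⟨Z, hZ, h1⟩ := hnear P hP
    have h2 : ((xR F K p : RR F K) : K) / algebraMap (RR F K) K (ϖ P) ∈ RP K P :=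
      ((hVQB (RR F K) K P (ϖ P) (hϖ P hPT).1 (hϖ P hPT).2).2.1 (xR F K p)).2 hP
    have h3 := blk_near (P := P) (hw0 P hPT) (hϖ P hPT).1 (A := hᵀ * A * h)
      (C := (k P)ᵀ * A * k P)
      (Z := Matrix.of fun i j => (((xR F K p : RR F K) : K) / algebraMap (RR F K) K (ϖ P)) ^ 2 *
        Z i j) (hkT P hP hPT).1 (fun i j => by
        rw [Matrix.of_apply, sq]
        exact rp_mul (rp_mul h2 h2) (hZ i j)) fun i j => by
        rw [h1 i j, Matrix.of_apply]
        have := hw0 P hPT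
        field_simp
    rw [(hkT P hP hPT).2]
    exact h3
  obtain ⟨m, δ, hδ, hloc, hev⟩ := hLDT F hF K n g ω p hp hpi hgood T ϖ hϖ (hᵀ * A * h) hsym hmin
    hui fun P hPT hP => (hblk P hPT hP).1
  obtain ⟨t1, t2, t3, t4, t5, t6, t7, t8, t9⟩ := hTRF (RatFunc F) K n (2 * g + 1) ω
  have hnB : trm ω (-B) = -trm ω B := by
    ext i j
    show Algebra.trace (RatFunc F) K (ω i.2 * ω j.2 * (-B) i.1 j.1) =
      -Algebra.trace (RatFunc F) K (ω i.2 * ω j.2 * B i.1 j.1)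
    rw [Matrix.neg_apply, mul_neg, map_neg]
  obtain ⟨g', hg0, hg1⟩ := hGDU F K n (2 * g + 1) ω p hp hpi hgood (-B) fun P hP =>
    sd_neg (hBsd P hP)
  rw [hnB] at hg1
  rw [← t1] at hloc
  have hdet : (lmm ω h).det ≠ 0 := by
    rw [t3]
    exact Algebra.norm_ne_zero_iff.2 hh0
  refine ⟨m, δ, hδ, hLDS F p hp hpi _ _ (trm ω A) (lmm ω h) (-trm ω B) g' m δ hdet hloc hg0 hg1,
    ?_⟩
  rw [hev]
  have hset : {P | P ∈ T ∧ Abv p P ∧
      ¬ SqQ (RP K P) (ϖ P : K) ((-1) ^ g * dsc (ϖ P : K) (hᵀ * A * h))} =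
      {P | P ∈ T ∧ Abv p P ∧ ¬ SqQ (RP K P) (ϖ P : K) ((-1) ^ g * d P)} := by
    ext P
    refine and_congr_right fun hPT => and_congr_right fun hP => not_congr ?_
    exact sq_near (P := P) (ϖ := ϖ P) (hw0 P hPT) (hblk P hPT hP).2
  rw [hset]

end Pool.T1
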