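import Pool.Agent.H29.T1.ZS
import Pool.Agent.H53.TOW.SPLB

/-!
# T1, ZRAM: almost all primes are unramified
-/

set_option autoImplicit false

namespace Pool.T1

open Polynomial Pool.HYP Pool.TOW Pool.AVS IsDedekindDomain IsLocalRing

namespace Zram

/-- Clearing denominators. -/
theorem clr {A : Type} [CommRing A] [IsDomain A] {K : Type} [Field K] [Algebra A K]
    [IsFractionRing A K] (g : K[X]) : ∃ c : A, c ≠ 0 ∧ ∃ q : A[X],
    q.map (algebraMap A K) = C (algebraMap A K c) * g := by
  obtain ⟨b, hb1, hb2⟩ := IsLocalization.integerNormalization_spec (nonZeroDivisors A) g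
  refine ⟨b, nonZeroDivisors.ne_zero hb1,
    IsLocalization.integerNormalization (nonZeroDivisors A) g, ?_⟩
  rw [hb2, ← IsScalarTower.algebraMap_smul K b g, Polynomial.smul_eq_C_mul]

open IntermediateField in
/-- A primitive element. -/
theorem prim (R : Type) [CommRing R] [IsDedekindDomain R] (K : Type) [Field K] [Algebra R K]
    [IsFractionRing R K] (E : Type) [Field E] [Algebra K E] [FiniteDimensional K E]
    [IsGalois K E] :
    ∃ (h : R[X]) (δ : R) (u v : R[X]), h.Monic ∧ δ ≠ 0 ∧ u * h + v * derivative h = C δ ∧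
      Irreducible (fk K h) ∧ (fk K h).natDegree = Module.finrank K E ∧
      ((fk K h).map (algebraMap K E)).Splits := by
  let _ : Algebra R E := ((algebraMap K E).comp (algebraMap R K)).toAlgebra
  have : IsScalarTower R K E := IsScalarTower.of_algebraMap_eq (fun _ => rfl)
  obtain ⟨θ₁, hθ₁⟩ := Field.exists_primitive_element K E
  obtain ⟨c, hc⟩ := IsIntegral.exists_multiple_integral_of_isLocalization
    (nonZeroDivisors R) (Rₘ := K) θ₁ (IsIntegral.of_finite K θ₁)
  have hc0 : (c : R) ≠ 0 := nonZeroDivisors.ne_zero c.2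
  have hcK : algebraMap R K (c : R) ≠ 0 := fun h =>
    hc0 (IsFractionRing.injective R K (h.trans (map_zero _).symm))
  set θ : E := c • θ₁ with hθdef
  have hθe : θ = algebraMap K E (algebraMap R K (c : R)) * θ₁ := by
    rw [hθdef, Submonoid.smul_def, Algebra.smul_def]
    rfl
  have hcE' : algebraMap K E (algebraMap R K (c : R)) ≠ 0 := (_root_.map_ne_zero _).2 hcK
  have hθtop : K⟮θ⟯ = ⊤ := by
    rw [eq_top_iff, ← hθ₁, IntermediateField.adjoin_simple_le_iff]
    have h1 : θ₁ = algebraMap K E (algebraMap R K (c : R))⁻¹ * θ := by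
      rw [hθe, map_inv₀]
      field_simp
    rw [h1]
    exact mul_mem (IntermediateField.algebraMap_mem _ _)
      (IntermediateField.mem_adjoin_simple_self _ _)
  have hmin : minpoly K θ = fk K (minpoly R θ) :=
    minpoly.isIntegrallyClosed_eq_field_fractions' K hc
  have hdeg : (fk K (minpoly R θ)).natDegree = Module.finrank K E := by
    rw [← hmin]
    exact (Field.primitive_element_iff_minpoly_natDegree_eq K θ).1 hθtop
  obtain ⟨a, b, hab⟩ : (minpoly K θ).Separable :=
    Algebra.IsSeparable.isSeparable K θ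
  obtain ⟨c₁, hc₁, q₁, hq₁⟩ := clr (A := R) a
  obtain ⟨c₂, hc₂, q₂, hq₂⟩ := clr (A := R) b
  refine ⟨minpoly R θ, c₁ * c₂, C c₂ * q₁, C c₁ * q₂, minpoly.monic hc,
    mul_ne_zero hc₁ hc₂, ?_, ?_, hdeg, ?_⟩
  · apply Polynomial.map_injective _ (IsFractionRing.injective R K)
    rw [hmin] at hab
    have hd : derivative (fk K (minpoly R θ)) = fk K (derivative (minpoly R θ)) :=
      Polynomial.derivative_map _ _
    rw [hd] at hab
    rw [Polynomial.map_add, Polynomial.map_mul, Polynomial.map_mul, Polynomial.map_mul,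
      Polynomial.map_mul, Polynomial.map_C, Polynomial.map_C, Polynomial.map_C, hq₁, hq₂,
      map_mul, C_mul]
    linear_combination (C (algebraMap R K c₁) * C (algebraMap R K c₂)) * hab
  · rw [← hmin]
    exact minpoly.irreducible (IsIntegral.of_finite K θ)
  · rw [← hmin]
    exact Normal.splits inferInstance θ

/-- Every element of `E` is a polynomial in a root of `h`. -/
theorem range_root {K : Type} [Field K] {E : Type} [Field E] [Algebra K E]
    [FiniteDimensional K E] {h : K[X]} (hm : h.Monic) (hi : Irreducible h)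
    (hd : h.natDegree = Module.finrank K E) {θ : E}
    (hθ : (h.map (algebraMap K E)).eval θ = 0) (e : E) :
    ∃ g : K[X], e = (g.map (algebraMap K E)).eval θ := by
  have hmin : h = minpoly K θ := by
    apply minpoly.eq_of_irreducible_of_monic hi
    · rw [Polynomial.aeval_def, ← Polynomial.eval_map]
      exact hθ
    · exact hm
  have htop : IntermediateField.adjoin K {θ} = ⊤ := by
    rw [Field.primitive_element_iff_minpoly_natDegree_eq, ← hmin, hd]
  have h1 : e ∈ IntermediateField.adjoin K {θ} := by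
    rw [htop]
    exact IntermediateField.mem_top
  have h2 : e ∈ (IntermediateField.adjoin K {θ}).toSubalgebra := h1
  rw [IntermediateField.adjoin_simple_toSubalgebra_of_isAlgebraic
    (Algebra.IsAlgebraic.isAlgebraic θ), Algebra.adjoin_singleton_eq_range_aeval] at h2
  obtain ⟨g, hg⟩ := h2
  refine ⟨g, ?_⟩
  rw [← hg]
  change Polynomial.aeval θ g = _
  rw [Polynomial.aeval_def, ← Polynomial.eval_map]

/-- Polynomials which agree modulo `ϖ`. -/
theorem dvd_of_map {A : Type} [CommRing A] {ϖ : A} {q r : A[X]}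
    (h : q.map (Ideal.Quotient.mk (Ideal.span {ϖ})) =
      r.map (Ideal.Quotient.mk (Ideal.span {ϖ}))) : ∃ w : A[X], q = r + C ϖ * w := by
  have h1 : C ϖ ∣ q - r := by
    rw [Polynomial.C_dvd_iff_dvd_coeff]
    intro i
    rw [← Ideal.mem_span_singleton, ← Ideal.Quotient.eq_zero_iff_mem, Polynomial.coeff_sub,
      map_sub, ← Polynomial.coeff_map, ← Polynomial.coeff_map, h, sub_self]
  obtain ⟨w, hw⟩ := h1
  exact ⟨w, by rw [← hw]; ring⟩

/-- The key step, over a local ring. -/
theorem key {A : Type} [CommRing A] {h u v : A[X]} (hδ : u * h + v * derivative h = 1) {ϖ : A}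
    (hmax : (Ideal.span {ϖ}).IsMaximal)
    {O : Type} [CommRing O] [IsLocalRing O] (φ : A →+* O) (hπ : φ ϖ ∈ maximalIdeal O)
    (t : O) (ht : (h.map φ).eval t = 0) (q : A[X])
    (hq : (q.map φ).eval t ∈ maximalIdeal O) :
    ∃ s q' : A[X], IsUnit ((s.map φ).eval t) ∧
      (s.map φ).eval t * (q.map φ).eval t = φ ϖ * (q'.map φ).eval t := by
  classical
  let _ := Ideal.Quotient.field (Ideal.span {ϖ})
  set mk := Ideal.Quotient.mk (Ideal.span {ϖ}) with hmk
  set ψ : A ⧸ Ideal.span {ϖ} →+* ResidueField O :=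
    Ideal.Quotient.lift (Ideal.span {ϖ}) ((residue O).comp φ) (by
      intro a ha
      obtain ⟨b, rfl⟩ := Ideal.mem_span_singleton.1 ha
      rw [RingHom.comp_apply, residue_eq_zero_iff, map_mul]
      exact Ideal.mul_mem_right _ _ hπ) with hψ
  have hψc : ψ.comp mk = (residue O).comp φ := by
    apply RingHom.ext
    intro x
    rfl
  set τ : ResidueField O := residue O t with hτ
  have hev : ∀ r : A[X], residue O ((r.map φ).eval t) = (((r.map mk).map ψ).eval τ) := by
    intro r
    rw [Polynomial.map_map, hψc, ← Polynomial.map_map, Polynomial.eval_map (residue O),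
      hτ, Polynomial.eval₂_at_apply]
  set hb := h.map mk with hhb
  set qb := q.map mk with hqb
  have hh0 : (hb.map ψ).eval τ = 0 := by
    rw [← hev, ht, map_zero]
  have hq0 : (qb.map ψ).eval τ = 0 := by
    rw [← hev, residue_eq_zero_iff]
    exact hq
  obtain ⟨η, hη⟩ := EuclideanDomain.gcd_dvd_left hb qb
  obtain ⟨κ, hκ⟩ := EuclideanDomain.gcd_dvd_right hb qb
  set γ := EuclideanDomain.gcd hb qb with hγ
  have hγ0 : (γ.map ψ).eval τ = 0 := by
    rw [hγ, EuclideanDomain.gcd_eq_gcd_ab, Polynomial.map_add, Polynomial.map_mul,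
      Polynomial.map_mul, Polynomial.eval_add, Polynomial.eval_mul, Polynomial.eval_mul, hh0, hq0,
      zero_mul, zero_mul, add_zero]
  have hη0 : (η.map ψ).eval τ ≠ 0 := by
    intro h0
    have h1 : (((derivative h).map mk).map ψ).eval τ = 0 := by
      rw [← Polynomial.derivative_map, ← Polynomial.derivative_map, ← hhb, hη,
        Polynomial.map_mul, Polynomial.derivative_mul, Polynomial.eval_add, Polynomial.eval_mul,
        Polynomial.eval_mul, hγ0, h0, mul_zero, zero_mul, add_zero]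
    have h2 := hev 1
    rw [← hδ] at h2
    simp only [Polynomial.map_add, Polynomial.map_mul, Polynomial.eval_add,
      Polynomial.eval_mul] at h2
    rw [h1, ← hhb, hh0, mul_zero, mul_zero, add_zero] at h2
    have h3 := congrArg (fun r : A[X] => (r.map φ).eval t) hδ
    simp only [Polynomial.map_add, Polynomial.map_mul, Polynomial.eval_add,
      Polynomial.eval_mul, Polynomial.map_one, Polynomial.eval_one] at h3
    rw [h3, map_one] at h2
    exact one_ne_zero h2
  obtain ⟨g, hg⟩ := Polynomial.map_surjective mk Ideal.Quotient.mk_surjective γ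
  obtain ⟨s, hs⟩ := Polynomial.map_surjective mk Ideal.Quotient.mk_surjective η
  obtain ⟨k, hk⟩ := Polynomial.map_surjective mk Ideal.Quotient.mk_surjective κ
  obtain ⟨ρ, hρ⟩ : ∃ w : A[X], h = g * s + C ϖ * w := by
    apply dvd_of_map
    rw [Polynomial.map_mul, hg, hs]
    exact hη
  obtain ⟨ω, hω⟩ : ∃ w : A[X], q = g * k + C ϖ * w := by
    apply dvd_of_map
    rw [Polynomial.map_mul, hg, hk]
    exact hκ
  refine ⟨s, s * ω - ρ * k, ?_, ?_⟩
  · by_contra h1
    apply hη0
    rw [← hs, ← hev, residue_eq_zero_iff]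
    exact (mem_maximalIdeal _).2 h1
  · have h1 := congrArg (fun r : A[X] => (r.map φ).eval t) hρ
    have h2 := congrArg (fun r : A[X] => (r.map φ).eval t) hω
    simp only [Polynomial.map_add, Polynomial.map_mul, Polynomial.eval_add, Polynomial.eval_mul,
      Polynomial.map_C, Polynomial.eval_C, ht, Polynomial.map_sub, Polynomial.eval_sub] at h1 h2 ⊢
    rw [h2]
    linear_combination -(k.map φ).eval t * h1

theorem unr_of {K : Type} [Field K] {E : Type} [Field E] [Algebra K E] [FiniteDimensional K E]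
    (w : ValuationSubring K) {ϖ : w} (hϖ : Ideal.span {ϖ} = maximalIdeal w) (hϖ0 : ϖ ≠ 0)
    {h u v : w[X]} (hm : h.Monic) (hδ : u * h + v * derivative h = 1)
    (hi : Irreducible (h.map (algebraMap w K)))
    (hd : (h.map (algebraMap w K)).natDegree = Module.finrank K E)
    (hs : ((h.map (algebraMap w K)).map (algebraMap K E)).Splits) : UnrV E w := by
  intro L _ O ι hA z hz hz'
  obtain ⟨hC, hcom⟩ := hA
  have hw : ∀ x : K, x ∈ w → ι (algebraMap K E x) ∈ O := by
    intro x hx
    rw [← hcom] at hx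
    exact hx
  have hw' : ∀ x : K, ι (algebraMap K E x) ∈ O → x ∈ w := by
    intro x hx
    rw [← hcom]
    exact hx
  have hmaxw : ϖ ∈ maximalIdeal w := by
    rw [← hϖ]
    exact Ideal.mem_span_singleton_self ϖ
  have hϖK : (ϖ : K) ≠ 0 := fun h0 => hϖ0 (Subtype.ext h0)
  have hϖi : (ϖ : K)⁻¹ ∉ w := by
    intro h0
    rw [mem_maximalIdeal, mem_nonunits_iff] at hmaxw
    apply hmaxw
    exact IsUnit.of_mul_eq_one (⟨(ϖ : K)⁻¹, h0⟩ : w) (Subtype.ext (mul_inv_cancel₀ hϖK))
  refine ⟨(ϖ : K), ϖ.2, hϖi, ?_⟩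
  set φ : w →+* O := ((ι.comp (algebraMap K E)).comp w.subtype).codRestrict
      O.toSubring (fun p => hw p p.2) with hφ
  have hφv : ∀ p : w, ((φ p : O) : L) = ι (algebraMap K E p) := fun p => rfl
  have hinj : ∀ p : w, p ≠ 0 → ι (algebraMap K E p) ≠ 0 := by
    intro p hp
    rw [_root_.map_ne_zero, _root_.map_ne_zero]
    exact fun h0 => hp (Subtype.ext h0)
  have hπ : φ ϖ ∈ maximalIdeal O := by
    rw [mem_maximalIdeal, mem_nonunits_iff, Spl53.isUnit_iff_inv]
    intro h0
    refine hϖi (hw' _ ?_)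
    rw [map_inv₀, map_inv₀]
    exact h0.1
  have hπ0 : φ ϖ ≠ 0 := fun h0 => hinj ϖ hϖ0 (congrArg (fun z : O => (z : L)) h0)
  have hev : ∀ (q : w[X]) (t : O) (θ : E), (t : L) = ι θ →
      (((q.map φ).eval t : O) : L) =
        ι (((q.map (algebraMap w K)).map (algebraMap K E)).eval θ) := by
    intro q t θ ht
    have e1 : (((q.map φ).eval t : O) : L) = Polynomial.eval₂ (O.subtype.comp φ) (t : L) q := by
      rw [Polynomial.eval_map]
      exact Polynomial.hom_eval₂ q φ O.subtype t
    have e2 : ι (((q.map (algebraMap w K)).map (algebraMap K E)).eval θ) =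
        Polynomial.eval₂ (ι.comp ((algebraMap K E).comp (algebraMap w K))) (ι θ) q := by
      rw [Polynomial.map_map, Polynomial.eval_map]
      exact Polynomial.hom_eval₂ q _ ι θ
    rw [e1, e2, ht]
    rfl
  -- a root
  obtain ⟨θ, hθ⟩ : ∃ θ : E, (((h.map (algebraMap w K)).map (algebraMap K E))).eval θ = 0 := by
    apply hs.exists_eval_eq_zero
    have h1 : (h.map (algebraMap w K)).degree ≠ 0 := by
      intro h0
      have h2 := natDegree_eq_of_degree_eq_some h0
      rw [h2] at hd
      exact (Module.finrank_pos (R := K) (M := E)).ne hd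
    rwa [Polynomial.degree_map (h.map (algebraMap w K))]
  have hint : ι θ ∈ O := by
    have h1 : IsIntegral O (ι θ) := by
      refine ⟨h.map φ, hm.map φ, ?_⟩
      rw [Polynomial.eval₂_map]
      have e2 : ι (((h.map (algebraMap w K)).map (algebraMap K E)).eval θ) =
          Polynomial.eval₂ (ι.comp ((algebraMap K E).comp (algebraMap w K))) (ι θ) h := by
        rw [Polynomial.map_map, Polynomial.eval_map]
        exact Polynomial.hom_eval₂ h _ ι θ
      rw [hθ, map_zero] at e2
      rw [e2]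
      rfl
    obtain ⟨y, hy⟩ := (IsIntegrallyClosed.isIntegral_iff (R := O) (K := L)).1 h1
    rw [← hy]
    exact y.2
  set t : O := ⟨ι θ, hint⟩ with ht
  have ht0 : (h.map φ).eval t = 0 := by
    apply Subtype.ext
    rw [hev h t θ rfl, hθ, map_zero]
    rfl
  have hmax : (Ideal.span {ϖ}).IsMaximal := by
    rw [hϖ]
    infer_instance
  -- the values are powers of `ϖ` times units
  have hN : ∀ (N : ℕ) (q : w[X]), ¬ φ ϖ ^ N ∣ (q.map φ).eval t →
      ∃ (n : ℕ) (y : O), IsUnit y ∧ (q.map φ).eval t = φ ϖ ^ n * y := by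
    intro N
    induction N with
    | zero =>
      intro q hq
      exact absurd (by rw [pow_zero]; exact one_dvd _) hq
    | succ N ih =>
      intro q hq
      by_cases hu : IsUnit ((q.map φ).eval t)
      · exact ⟨0, _, hu, by rw [pow_zero, one_mul]⟩
      · obtain ⟨s, q', hsu, hsq⟩ := key hδ hmax φ hπ t ht0 q ((mem_maximalIdeal _).2 hu)
        have h1 : ¬ φ ϖ ^ N ∣ (q'.map φ).eval t := by
          intro h2
          apply hq
          rw [← IsUnit.dvd_mul_left hsu, hsq, pow_succ']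
          exact mul_dvd_mul_left _ h2
        obtain ⟨n, y, hy, hqw⟩ := ih q' h1
        obtain ⟨s', hs'⟩ := hsu
        refine ⟨n + 1, ((s'⁻¹ : Oˣ) : O) * y, (Units.isUnit _).mul hy, ?_⟩
        rw [hqw, ← hs'] at hsq
        have h3 : (q.map φ).eval t = ((s'⁻¹ : Oˣ) : O) * ((s' : O) * (q.map φ).eval t) := by
          rw [← mul_assoc, Units.inv_mul, one_mul]
        rw [h3, hsq]
        ring
  have hval : ∀ q : w[X], (q.map φ).eval t ≠ 0 →
      ∃ (n : ℕ) (y : O), IsUnit y ∧ (q.map φ).eval t = φ ϖ ^ n * y := by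
    intro q hq
    have hB : (((q.map φ).eval t : O) : L) ≠ 0 := fun h0 => hq (Subtype.ext h0)
    obtain ⟨m, hmB⟩ := Spl53.arch O hC.dvr (φ ϖ) hπ _ hB
    apply hN (m + 1) q
    rintro ⟨y, hy⟩
    have h1 : φ ϖ ^ m = (q.map φ).eval t * ⟨_, hmB⟩ := by
      apply Subtype.ext
      change _ = (((q.map φ).eval t : O) : L) * (((φ ϖ ^ m : O) : L) / _)
      rw [mul_div_cancel₀ _ hB]
    generalize (⟨_, hmB⟩ : O) = k at h1
    rw [hy] at h1
    have h2 : φ ϖ ^ m * 1 = φ ϖ ^ m * (φ ϖ * (y * k)) := by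
      rw [mul_one]
      conv_lhs => rw [h1]
      ring
    have hdom : IsDomain O := inferInstance
    have h3 := mul_left_cancel₀ (pow_ne_zero m hπ0) h2
    exact (mem_maximalIdeal _).1 hπ (IsUnit.of_mul_eq_one _ h3.symm)
  -- approximation
  have hP0 : ι (algebraMap K E (ϖ : K)) ≠ 0 := hinj ϖ hϖ0
  obtain ⟨x, hx⟩ := hC.dense z (ι (algebraMap K E (ϖ : K))) hP0
  have hsum : z / ι (algebraMap K E (ϖ : K)) = (z - ι x) / ι (algebraMap K E (ϖ : K)) +
      ι x / ι (algebraMap K E (ϖ : K)) := by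
    rw [← add_div]
    congr 1
    ring
  rw [hsum]
  refine add_mem hx ?_
  have hxO : ι x ∈ O := by
    have h1 : ι x = z - (z - ι x) / ι (algebraMap K E (ϖ : K)) *
        ι (algebraMap K E (ϖ : K)) := by
      rw [div_mul_cancel₀ _ hP0]
      ring
    rw [h1]
    exact sub_mem hz (mul_mem hx (hw _ ϖ.2))
  have hxm : (⟨ι x, hxO⟩ : O) ∈ maximalIdeal O := by
    have h1 : (⟨ι x, hxO⟩ : O) = ⟨z, hz⟩ - ⟨_, hx⟩ * φ ϖ := by
      apply Subtype.ext
      change ι x = z - (z - ι x) / ι (algebraMap K E (ϖ : K)) * ι (algebraMap K E (ϖ : K))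
      rw [div_mul_cancel₀ _ hP0]
      ring
    rw [h1]
    refine Ideal.sub_mem _ ?_ (Ideal.mul_mem_left _ _ hπ)
    rw [mem_maximalIdeal, mem_nonunits_iff, Spl53.isUnit_iff_inv]
    exact fun h => hz' h.1
  by_cases hx0 : ι x = 0
  · rw [hx0, zero_div]
    exact O.zero_mem
  obtain ⟨g, hg⟩ := range_root (hm.map _) hi hd hθ x
  obtain ⟨c, hc0, q, hq⟩ := clr (A := w) g
  have hqθ : ((q.map (algebraMap w K)).map (algebraMap K E)).eval θ =
      algebraMap K E (c : K) * x := by
    rw [hq, Polynomial.map_mul, Polynomial.map_C, Polynomial.eval_mul, Polynomial.eval_C, hg]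
    rfl
  have hqt : (q.map φ).eval t = φ c * ⟨ι x, hxO⟩ := by
    apply Subtype.ext
    rw [hev q t θ rfl, hqθ, map_mul]
    rfl
  have hφc0 : φ c ≠ 0 := fun h0 => hinj c hc0 (congrArg (fun z : O => (z : L)) h0)
  have hx0' : (⟨ι x, hxO⟩ : O) ≠ 0 := fun h0 => hx0 (congrArg (fun z : O => (z : L)) h0)
  obtain ⟨n, y, hy, hny⟩ := hval q (by rw [hqt]; exact mul_ne_zero hφc0 hx0')
  obtain ⟨m, y', hy', hmy⟩ := hval (C c) (by
    rw [Polynomial.map_C, Polynomial.eval_C]
    exact hφc0)
  rw [Polynomial.map_C, Polynomial.eval_C] at hmy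
  have hlt : m < n := by
    by_contra hle
    push Not at hle
    obtain ⟨e, rfl⟩ := Nat.exists_eq_add_of_le hle
    have h1 : φ ϖ ^ n * (φ ϖ ^ e * y' * ⟨ι x, hxO⟩) = φ ϖ ^ n * y := by
      rw [← hny, hqt, hmy, pow_add]
      ring
    have h2 := mul_left_cancel₀ (pow_ne_zero n hπ0) h1
    have h3 : y ∈ maximalIdeal O := by
      rw [← h2]
      exact Ideal.mul_mem_left _ _ hxm
    exact (mem_maximalIdeal _).1 h3 hy
  obtain ⟨e, rfl⟩ := Nat.exists_eq_add_of_lt hlt
  obtain ⟨y'', hy''⟩ := hy'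
  have h1 : φ ϖ ^ m * (y' * ⟨ι x, hxO⟩) = φ ϖ ^ m * (φ ϖ * (φ ϖ ^ e * y)) := by
    have h2 : φ ϖ ^ m * (y' * ⟨ι x, hxO⟩) = (q.map φ).eval t := by
      rw [hqt, hmy]
      ring
    rw [h2, hny]
    ring
  have h2 := mul_left_cancel₀ (pow_ne_zero m hπ0) h1
  have h3 : (⟨ι x, hxO⟩ : O) = φ ϖ * (((y''⁻¹ : Oˣ) : O) * (φ ϖ ^ e * y)) := by
    have h4 : (⟨ι x, hxO⟩ : O) = ((y''⁻¹ : Oˣ) : O) * (y' * ⟨ι x, hxO⟩) := by
      rw [← hy'', ← mul_assoc, Units.inv_mul, one_mul]
    rw [h4, h2]
    ring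
  have h5 : ι x = ι (algebraMap K E (ϖ : K)) *
      (((((y''⁻¹ : Oˣ) : O) * (φ ϖ ^ e * y)) : O) : L) :=
    congrArg (fun z : O => (z : L)) h3
  rw [h5, mul_div_cancel_left₀ _ hP0]
  exact SetLike.coe_mem _

end Zram

open Zram in
/-- ZRAM. -/
theorem zram : ZRAMStmt := by
  classical
  intro R _ _ K _ _ _ O π _ E _ _ hfd hgal
  obtain ⟨h, δ, u, v, hm, hδ0, hδ, hi, hd, hs⟩ := prim R K E
  have h1 : Ideal.span {δ} ≠ (0 : Ideal R) := by
    rw [Ne, Ideal.zero_eq_bot, Ideal.span_singleton_eq_bot]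
    exact hδ0
  have hfin := Ideal.finite_factors h1
  refine ⟨hfin.toFinset, fun P hP => ?_⟩
  have hδP : δ ∉ P.asIdeal := fun h2 => hP (hfin.mem_toFinset.2 (Ideal.dvd_span_singleton.2 h2))
  have hmem : ∀ a : R, algebraMap R K a ∈ vP K P := fun a => P.valuation_le_one a
  set i : R →+* vP K P := (algebraMap R K).codRestrict (vP K P).toSubring hmem with hi'
  have hii : (algebraMap (vP K P) K).comp i = algebraMap R K := RingHom.ext fun a => rfl
  have hu : IsUnit (i δ) := by
    have h2 : P.valuation K (algebraMap R K δ) = 1 := P.valuation_eq_one_iff_notMem.2 hδP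
    have h3 : (algebraMap R K δ)⁻¹ ∈ vP K P := by
      show P.valuation K (algebraMap R K δ)⁻¹ ≤ 1
      rw [map_inv₀, h2, inv_one]
    have h4 : algebraMap R K δ ≠ 0 := fun h =>
      hδ0 (IsFractionRing.injective R K (h.trans (map_zero _).symm))
    exact IsUnit.of_mul_eq_one (⟨_, h3⟩ : vP K P) (Subtype.ext (mul_inv_cancel₀ h4))
  obtain ⟨δ', hδ'⟩ := hu.exists_left_inv
  obtain ⟨ϖ, hϖ⟩ := P.valuation_exists_uniformizer K
  have hϖ1 : P.valuation K ϖ < 1 := by
    rw [hϖ, ← WithZero.exp_zero, WithZero.exp_lt_exp]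
    norm_num
  have hϖ0 : ϖ ≠ 0 := by
    rintro rfl
    rw [map_zero] at hϖ
    exact WithZero.exp_ne_zero hϖ.symm
  have hgen : Ideal.span {(⟨ϖ, hϖ1.le⟩ : vP K P)} = maximalIdeal (vP K P) := by
    ext x
    rw [Ideal.mem_span_singleton, mem_maximalIdeal, mem_nonunits_iff]
    constructor
    · rintro ⟨y, rfl⟩ h2
      have h3 : P.valuation K (ϖ * (y : K)) = 1 := by
        obtain ⟨z, hz⟩ := h2.exists_right_inv
        have h4 : P.valuation K (ϖ * (y : K)) * P.valuation K (z : K) = 1 := by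
          rw [← map_mul, show ϖ * (y : K) * (z : K) = 1 from congrArg (fun t : vP K P => (t : K)) hz,
            map_one]
        have h5 : P.valuation K (ϖ * (y : K)) ≤ P.valuation K ϖ := by
          rw [map_mul]
          exact mul_le_of_le_one_right' y.2
        have h6 : P.valuation K (ϖ * (y : K)) * P.valuation K (z : K) < 1 :=
          lt_of_le_of_lt (mul_le_of_le_one_right' z.2) (lt_of_le_of_lt h5 hϖ1)
        exact absurd h4 h6.ne
      have h5 : P.valuation K (ϖ * (y : K)) ≤ P.valuation K ϖ := by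
        rw [map_mul]
        exact mul_le_of_le_one_right' y.2
      exact absurd h3 (lt_of_le_of_lt h5 hϖ1).ne
    · intro h2
      have h3 : P.valuation K (x : K) < 1 := by
        refine lt_of_le_of_ne x.2 fun h4 => h2 ?_
        have hx0 : (x : K) ≠ 0 := by
          intro h0
          rw [h0, map_zero] at h4
          exact zero_ne_one h4
        have h5 : (x : K)⁻¹ ∈ vP K P := by
          show P.valuation K (x : K)⁻¹ ≤ 1
          rw [map_inv₀, h4, inv_one]
        exact IsUnit.of_mul_eq_one (⟨_, h5⟩ : vP K P) (Subtype.ext (mul_inv_cancel₀ hx0))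
      have h6 : (x : K) / ϖ ∈ vP K P := by
        show P.valuation K ((x : K) / ϖ) ≤ 1
        rw [map_div₀]
        refine div_le_one_of_le₀ ?_ zero_le
        rw [hϖ]
        by_cases hx0 : P.valuation K (x : K) = 0
        · rw [hx0]
          exact zero_le
        · rw [← WithZero.exp_log hx0, WithZero.exp_le_exp]
          rw [← WithZero.exp_log hx0, ← WithZero.exp_zero, WithZero.exp_lt_exp] at h3
          omega
      exact ⟨⟨_, h6⟩, Subtype.ext (mul_div_cancel₀ _ hϖ0).symm⟩
  have hmap : (h.map i).map (algebraMap (vP K P) K) = fk K h := by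
    rw [Polynomial.map_map, hii]
  refine unr_of (vP K P) hgen (fun h0 => hϖ0 (congrArg (fun t : vP K P => (t : K)) h0))
    (h := h.map i) (u := C δ' * u.map i) (v := C δ' * v.map i) (hm.map i) ?_ ?_ ?_ ?_
  · have h2 := congrArg (Polynomial.map i) hδ
    rw [Polynomial.map_add, Polynomial.map_mul, Polynomial.map_mul, Polynomial.map_C,
      ← Polynomial.derivative_map] at h2
    rw [mul_assoc, mul_assoc, ← mul_add, h2, ← C_mul, hδ', C_1]
  · rw [hmap]
    exact hi
  · rw [hmap]
    exact hd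
  · rw [hmap]
    exact hs

end Pool.T1
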